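import Mathlib
import Pool.Agent.H810Z.TR.Main

set_option autoImplicit false

namespace Pool.Agent.Results.MP_f8b1fe_co.AEqual

open Pool.Agent.H810Z.TR

/-- Positive answer to Q1: the asymptotic transversal ratios of simplicial `d`-polytopes and of
simplicial `(d-1)`-spheres agree for every `d ≥ 4`. -/
theorem result : ∀ d : ℕ, 4 ≤ d → tauP d = tauS d :=
  fun _ hd => (tauP_eq hd).trans (tauS_eq hd).symm

end Pool.Agent.Results.MP_f8b1fe_co.AEqual
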